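import Pool.Agent.K1H88.T3.Stm

/-! Piece CONV of project T3 (helper68, for helper88). -/

set_option autoImplicit false

namespace Pool.Agent.K1H88.T3

open Pool.Agent.K1H81.TT (Semistable)

namespace CONV

/-- the curve `y² + a x y + b y = x³` -/
def Wc (a b : ℤ) : WeierstrassCurve ℤ := ⟨a, 0, b, 0, 0⟩

lemma Wc_c4 (a b : ℤ) : (Wc a b).c₄ = F4 a b := by
  simp only [WeierstrassCurve.c₄, WeierstrassCurve.b₂, WeierstrassCurve.b₄, Wc, F4]
  ring

lemma Wc_c6 (a b : ℤ) : (Wc a b).c₆ = F6 a b := by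
  simp only [WeierstrassCurve.c₆, WeierstrassCurve.b₂, WeierstrassCurve.b₄, WeierstrassCurve.b₆,
    Wc, F6]
  ring

lemma Wc_disc (a b : ℤ) : (Wc a b).Δ = DD a b := by
  simp only [WeierstrassCurve.Δ, WeierstrassCurve.b₂, WeierstrassCurve.b₄, WeierstrassCurve.b₆,
    WeierstrassCurve.b₈, Wc, DD, EE]
  ring

lemma semi {a b : ℤ} (h : Adm a b) : Semistable (Wc a b) := by
  obtain ⟨h3, hb, hE, hco⟩ := h
  constructor
  · rw [Wc_disc]
    exact mul_ne_zero (pow_ne_zero _ hb) hE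
  · intro p hp hd h4
    have hpi := Nat.prime_iff_prime_int.1 hp
    rw [Wc_disc] at hd
    rw [Wc_c4] at h4
    have hnot : ¬ ((p : ℤ) ∣ a ∧ (p : ℤ) ∣ b) := fun hh =>
      hpi.not_isUnit (hco.isUnit_of_dvd' hh.1 hh.2)
    have hp3a : ¬ ((p : ℤ) ∣ 27 ∧ (p : ℤ) ∣ a) := by
      rintro ⟨h5, h6⟩
      have h7 : p ∣ 3 ^ 3 := by exact_mod_cast h5
      have h8 : p = 3 := (Nat.prime_dvd_prime_iff_eq hp Nat.prime_three).1 (hp.dvd_of_dvd_pow h7)
      rw [h8] at h6
      exact h3 (by exact_mod_cast h6)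
    by_cases hpb : (p : ℤ) ∣ b
    · apply hnot
      refine ⟨?_, hpb⟩
      have e : a ^ 4 = F4 a b + b * (24 * a) := by unfold F4; ring
      have h5 : (p : ℤ) ∣ a ^ 4 := by
        rw [e]
        exact dvd_add h4 (hpb.mul_right _)
      exact hpi.dvd_of_dvd_pow h5
    · have hE' : (p : ℤ) ∣ EE a b := by
        unfold DD at hd
        rcases hpi.dvd_or_dvd hd with h5 | h5
        · exact absurd (hpi.dvd_of_dvd_pow h5) hpb
        · exact h5
      have e : 3 * (a * b) = F4 a b - a * EE a b := by unfold F4 EE; ring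
      have h5 : (p : ℤ) ∣ 3 * (a * b) := by
        rw [e]
        exact dvd_sub h4 (hE'.mul_left _)
      rcases hpi.dvd_or_dvd h5 with h6 | h6
      · have h27 : (p : ℤ) ∣ 27 := h6.trans (by norm_num)
        refine hp3a ⟨h27, ?_⟩
        have e2 : a ^ 3 = EE a b + 27 * b := by unfold EE; ring
        have h7 : (p : ℤ) ∣ a ^ 3 := by
          rw [e2]
          exact dvd_add hE' (h27.mul_right _)
        exact hpi.dvd_of_dvd_pow h7
      · rcases hpi.dvd_or_dvd h6 with h7 | h7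
        · have e2 : 27 * b = a ^ 3 - EE a b := by unfold EE; ring
          have h8 : (p : ℤ) ∣ 27 * b := by
            rw [e2]
            exact dvd_sub (dvd_pow h7 (by norm_num)) hE'
          rcases hpi.dvd_or_dvd h8 with h9 | h9
          · exact hp3a ⟨h9, h7⟩
          · exact hpb h9
        · exact hpb h7

open WeierstrassCurve.Affine in
lemma tors {a b : ℤ} (hb : b ≠ 0) : ThreeTors (Wc a b) := by
  have hbq : (b : ℚ) ≠ 0 := by exact_mod_cast hb
  obtain ⟨V, hV⟩ : ∃ V : WeierstrassCurve.Affine ℚ, V = ((Wc a b).map (Int.castRingHom ℚ)).toAffine :=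
    ⟨_, rfl⟩
  have a1 : V.a₁ = a := by rw [hV]; simp [Wc]
  have a2 : V.a₂ = 0 := by rw [hV]; simp [Wc]
  have a3 : V.a₃ = b := by rw [hV]; simp [Wc]
  have a4 : V.a₄ = 0 := by rw [hV]; simp [Wc]
  have a6 : V.a₆ = 0 := by rw [hV]; simp [Wc]
  unfold ThreeTors
  rw [← hV]
  have hns : V.Nonsingular 0 0 := by
    rw [nonsingular_zero]
    exact ⟨a6, Or.inl (by rw [a3]; exact hbq)⟩
  have hy : (0 : ℚ) ≠ V.negY 0 0 := by
    unfold negY
    rw [a3]
    simpa using hbq
  refine ⟨Point.some 0 0 hns, ?_, ?_⟩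
  · intro h
    cases h
  · have hs : V.slope 0 0 0 0 = 0 := by
      rw [slope_of_Y_ne rfl hy, a2, a4]
      simp
    have hx : V.addX 0 0 (V.slope 0 0 0 0) = 0 := by
      rw [hs]
      unfold addX
      rw [a2]
      simp
    have hyy : V.negAddY 0 0 0 (V.slope 0 0 0 0) = 0 := by
      unfold negAddY
      rw [hx, hs]
      simp
    have hPP : Point.some 0 0 hns + Point.some 0 0 hns = -Point.some 0 0 hns := by
      rw [Point.add_self_of_Y_ne' hy]
      simp only [hx, hyy]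
    rw [show (3 : ℕ) = 2 + 1 from rfl, succ_nsmul, two_nsmul, hPP, neg_add_cancel]

end CONV

open CONV in
theorem t_CONV : S_CONV := fun a b h => ⟨Wc a b, semi h, tors h.2.1, Wc_c4 a b, Wc_c6 a b⟩

end Pool.Agent.K1H88.T3

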