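import Pool.Agent.K1H88.T3.Stm
import Pool.Agent.K1H81.TT.HGT

/-!
# Piece HGT of project T3: the naive height of a semistable curve with `3 ∤ c₄` (helper87)
-/

set_option autoImplicit false

namespace Pool.Agent.K1H88.T3

namespace HGT

open Pool.Agent.K1H81.TT (Semistable rootNumber height)
open Pool.Agent.K1H81.TT.HGT

/-- `16` does not divide `c₆` if `c₄` is even -/
lemma c6_16 {W : WeierstrassCurve ℤ} (hW : Semistable W) (h2 : (2 : ℤ) ∣ W.c₄) :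
    ¬ (16 : ℤ) ∣ W.c₆ := by
  have hΔ : ¬ (2 : ℤ) ∣ W.Δ := by
    intro h
    exact hW.2 2 Nat.prime_two (by exact_mod_cast h) (by exact_mod_cast h2)
  have h1 : (2 : ℤ) ∣ W.a₁ := by
    have h3 : (2 : ℤ) ∣ W.b₂ ^ 2 := by
      have e : W.b₂ ^ 2 = W.c₄ + 2 * (12 * W.b₄) := by
        unfold WeierstrassCurve.c₄; ring
      rw [e]
      exact dvd_add h2 (dvd_mul_right _ _)
    have h4 := Int.prime_two.dvd_of_dvd_pow h3
    have h5 : (2 : ℤ) ∣ W.a₁ ^ 2 := by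
      have e : W.a₁ ^ 2 = W.b₂ - 2 * (2 * W.a₂) := by
        unfold WeierstrassCurve.b₂; ring
      rw [e]
      exact dvd_sub h4 (dvd_mul_right _ _)
    exact Int.prime_two.dvd_of_dvd_pow h5
  obtain ⟨r, hr⟩ := h1
  have h3 : ¬ (2 : ℤ) ∣ W.a₃ := by
    rintro ⟨s, hs⟩
    apply hΔ
    have hb2 : W.b₂ = 2 * (2 * r ^ 2 + 2 * W.a₂) := by
      unfold WeierstrassCurve.b₂; rw [hr]; ring
    have hb6 : W.b₆ = 2 * (2 * s ^ 2 + 2 * W.a₆) := by
      unfold WeierstrassCurve.b₆; rw [hs]; ring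
    refine ⟨-(2 * (2 * r ^ 2 + 2 * W.a₂) ^ 2 * W.b₈) - 4 * W.b₄ ^ 3 -
      54 * (2 * s ^ 2 + 2 * W.a₆) ^ 2 + 9 * (2 * r ^ 2 + 2 * W.a₂) * W.b₄ * W.b₆, ?_⟩
    unfold WeierstrassCurve.Δ
    rw [hb2, hb6]
    ring
  obtain ⟨s, hs⟩ : ∃ s : ℤ, W.a₃ = 2 * s + 1 := by
    obtain ⟨s, hs⟩ := Int.not_even_iff_odd.1 (fun h => h3 h.two_dvd)
    exact ⟨s, hs⟩
  rintro ⟨k, hk⟩
  have e : W.c₆ = 8 * (2 * (-(4 * (r ^ 2 + W.a₂) ^ 3) +
      18 * (r ^ 2 + W.a₂) * (W.a₄ + r * W.a₃) -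
      27 * (2 * s ^ 2 + 2 * s + 2 * W.a₆) + (-13)) - 1) := by
    unfold WeierstrassCurve.c₆ WeierstrassCurve.b₂ WeierstrassCurve.b₄ WeierstrassCurve.b₆
    rw [hr, hs]
    ring
  rw [e] at hk
  omega

end HGT

open HGT Pool.Agent.K1H81.TT.HGT in
theorem t_HGT : S_HGT := by
  intro W hW h3
  have hno : ∀ q : ℕ, q.Prime → ¬ ((q : ℤ) ^ 4 ∣ -(27 * W.c₄) ∧ (q : ℤ) ^ 6 ∣ -(54 * W.c₆)) := by
    rintro q hq ⟨h4, h6⟩
    rw [dvd_neg] at h4 h6
    by_cases hq3 : q = 3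
    · subst hq3
      apply h3
      have e : ((3 : ℕ) : ℤ) ^ 4 = 27 * 3 := by norm_num
      rw [e] at h4
      exact Int.dvd_of_mul_dvd_mul_left (by norm_num) h4
    · have h4' : (q : ℤ) ∣ W.c₄ := pr_three hq hq3 ((dvd_pow_self _ (by norm_num)).trans h4)
      by_cases hq2 : q = 2
      · subst hq2
        apply c6_16 hW (by exact_mod_cast h4')
        have e : ((2 : ℕ) : ℤ) ^ 6 = 64 := by norm_num
        rw [e] at h6
        omega
      · refine not_both hW hq hq2 hq3 h4' ?_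
        have e : 54 * W.c₆ = 2 * (27 * W.c₆) := by ring
        rw [e] at h6
        exact pr_three hq hq3 (pr_two hq hq2 ((dvd_pow_self _ (by norm_num)).trans h6))
  have h5 := height_eq (W := W) hno (t0 := 6) (by norm_num)
    (by push_cast; ring) (by push_cast; ring)
  rw [h5]
  simp only [Int.natAbs_neg, Int.natAbs_mul]
  have e27 : (27 : ℤ).natAbs = 27 := rfl
  have e54 : (54 : ℤ).natAbs = 54 := rfl
  rw [e27, e54, ← Nat.mul_max_mul_left]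
  congr 1
  · ring
  · ring

end Pool.Agent.K1H88.T3
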