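import Pool.Agent.K1H88.T3.Stm

set_option autoImplicit false

namespace Pool.Agent.K1H88.T3

open Finset Filter Topology
open Pool.Agent.K1H81.TT (Semistable rootNumber height QQ gg mm e)

namespace STEP

lemma card_le (S : Finset ℤ) (l : ℝ) (hl : 0 ≤ l)
    (h : ∀ x ∈ S, ∀ y ∈ S, |(x : ℝ) - y| ≤ l) : (S.card : ℝ) ≤ l + 1 := by
  rcases S.eq_empty_or_nonempty with rfl | hS
  · simp; linarith
  · have h1 : S ⊆ Icc (S.min' hS) (S.max' hS) := fun x hx =>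
      mem_Icc.2 ⟨S.min'_le x hx, S.le_max' x hx⟩
    have h2 := card_le_card h1
    rw [Int.card_Icc] at h2
    have h3 := h _ (S.max'_mem hS) _ (S.min'_mem hS)
    have h4 : S.min' hS ≤ S.max' hS := S.min'_le _ (S.max'_mem hS)
    have h5 : (((S.max' hS + 1 - S.min' hS).toNat : ℕ) : ℝ) = (S.max' hS : ℝ) + 1 - S.min' hS := by
      have h6 : (((S.max' hS + 1 - S.min' hS).toNat : ℕ) : ℤ) = S.max' hS + 1 - S.min' hS :=
        Int.toNat_of_nonneg (by linarith)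
      have h7 := congrArg (fun z : ℤ => (z : ℝ)) h6
      push_cast at h7
      exact_mod_cast h7
    have h6 : (S.card : ℝ) ≤ (((S.max' hS + 1 - S.min' hS).toNat : ℕ) : ℝ) := by exact_mod_cast h2
    rw [h5] at h6
    have h7 := le_abs_self ((S.max' hS : ℝ) - S.min' hS)
    linarith

lemma cube_sub {a a' κ n : ℝ} (hn : 0 ≤ n) (hκ : 0 ≤ κ) (h1 : |a| ≤ 2 * n) (h2 : |a'| ≤ 2 * n)
    (h3 : |a - a'| ≤ κ * n) : |a ^ 3 - a' ^ 3| ≤ 12 * κ * n ^ 3 := by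
  have e : a ^ 3 - a' ^ 3 = (a - a') * (a ^ 2 + a * a' + a' ^ 2) := by ring
  have h4 : |a ^ 2 + a * a' + a' ^ 2| ≤ 12 * n ^ 2 := by
    have := abs_le.1 h1
    have := abs_le.1 h2
    rw [abs_le]
    constructor <;> nlinarith
  rw [e, abs_mul]
  calc _ ≤ (κ * n) * (12 * n ^ 2) := mul_le_mul h3 h4 (abs_nonneg _) (by positivity)
    _ = _ := by ring

lemma four_sub {a a' κ n : ℝ} (hn : 0 ≤ n) (hκ : 0 ≤ κ) (h1 : |a| ≤ 2 * n) (h2 : |a'| ≤ 2 * n)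
    (h3 : |a - a'| ≤ κ * n) : |a ^ 4 - a' ^ 4| ≤ 32 * κ * n ^ 4 := by
  have e : a ^ 4 - a' ^ 4 = (a - a') * ((a + a') * (a ^ 2 + a' ^ 2)) := by ring
  have h4 : |(a + a') * (a ^ 2 + a' ^ 2)| ≤ 32 * n ^ 3 := by
    rw [abs_mul]
    have h5 : |a + a'| ≤ 4 * n := (abs_add_le _ _).trans (by linarith)
    have h6 : |a ^ 2 + a' ^ 2| ≤ 8 * n ^ 2 := by
      have := abs_le.1 h1
      have := abs_le.1 h2
      rw [abs_le]
      constructor <;> nlinarith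
    calc _ ≤ (4 * n) * (8 * n ^ 2) := mul_le_mul h5 h6 (abs_nonneg _) (by positivity)
      _ = _ := by ring
  rw [e, abs_mul]
  calc _ ≤ (κ * n) * (32 * n ^ 3) := mul_le_mul h3 h4 (abs_nonneg _) (by positivity)
    _ = _ := by ring

lemma six_sub {a a' κ n : ℝ} (hn : 0 ≤ n) (hκ : 0 ≤ κ) (h1 : |a| ≤ 2 * n) (h2 : |a'| ≤ 2 * n)
    (h3 : |a - a'| ≤ κ * n) : |a ^ 6 - a' ^ 6| ≤ 192 * κ * n ^ 6 := by
  have e : a ^ 6 - a' ^ 6 = (a ^ 3 - a' ^ 3) * (a ^ 3 + a' ^ 3) := by ring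
  have h4 : |a ^ 3 + a' ^ 3| ≤ 16 * n ^ 3 := by
    have h5 : |a ^ 3| ≤ (2 * n) ^ 3 := by rw [abs_pow]; exact pow_le_pow_left₀ (abs_nonneg _) h1 3
    have h6 : |a' ^ 3| ≤ (2 * n) ^ 3 := by rw [abs_pow]; exact pow_le_pow_left₀ (abs_nonneg _) h2 3
    refine (abs_add_le _ _).trans ?_
    nlinarith
  rw [e, abs_mul]
  calc _ ≤ (12 * κ * n ^ 3) * (16 * n ^ 3) :=
        mul_le_mul (cube_sub hn hκ h1 h2 h3) h4 (abs_nonneg _) (by positivity)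
    _ = _ := by ring

/-- the change of a condition `|F| ≤ R` -/
lemma change {F F' R d : ℝ} (hd : |F - F'| ≤ d)
    (h : ¬ (|F| ≤ R ↔ |F'| ≤ R)) : |F - R| ≤ d ∨ |F + R| ≤ d := by
  have h1 : |F| - |F'| ≤ d := (abs_sub_abs_le_abs_sub F F').trans hd
  have h2 : |F'| - |F| ≤ d := by
    have := abs_sub_abs_le_abs_sub F' F
    rw [abs_sub_comm] at this
    exact this.trans hd
  have h3 : |(|F| - R)| ≤ d := by
    rw [abs_le]
    by_cases h4 : |F| ≤ R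
    · have h5 : ¬ |F'| ≤ R := fun h5 => h ⟨fun _ => h5, fun _ => h4⟩
      constructor <;> linarith
    · have h5 : |F'| ≤ R := by
        by_contra h5
        exact h ⟨fun h6 => absurd h6 h4, fun h6 => absurd h6 h5⟩
      constructor <;> linarith
  rcases abs_cases F with h4 | h4
  · left; rw [h4.1] at h3; exact h3
  · right
    rw [h4.1] at h3
    rw [← abs_neg]
    convert h3 using 2
    ring

/-- the change of a sign -/
lemma changeS {F F' d s : ℝ} (hs : s = 1 ∨ s = -1) (hd : |F - F'| ≤ d)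
    (h : ¬ (0 < s * F ↔ 0 < s * F')) : |F| ≤ d := by
  have h1 := abs_le.1 hd
  by_cases h4 : 0 < s * F
  · have h5 : ¬ 0 < s * F' := fun h5 => h ⟨fun _ => h5, fun _ => h4⟩
    rw [abs_le]
    rcases hs with rfl | rfl <;> constructor <;> linarith
  · have h5 : 0 < s * F' := by
      by_contra h5
      exact h ⟨fun h6 => absurd h6 h4, fun h6 => absurd h6 h5⟩
    rw [abs_le]
    rcases hs with rfl | rfl <;> constructor <;> linarith

end STEP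

open STEP

open Classical in
theorem t_STEP : S_STEP := by
  intro η ε hη hε
  set s : ℝ := min 1 (ε / (2 * (10 / η + 13))) with hs
  have hq : 0 < 10 / η + 13 := by positivity
  have hs0 : 0 < s := lt_min one_pos (by positivity)
  have hs1 : s ≤ 1 := min_le_left _ _
  have hs2 : (10 / η + 13) * s ≤ ε / 2 := by
    have h1 : s ≤ ε / (2 * (10 / η + 13)) := min_le_right _ _
    rw [le_div_iff₀ (by positivity)] at h1
    linarith
  have hκ : s ^ 2 ≤ s := by nlinarith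
  refine ⟨s ^ 2, by positivity, ⌈14 / ε⌉₊ + 1, ?_⟩
  intro N Y hN hY hYN hNY sb sE hsb hsE a a' ha1 ha2 ha3 ha4
  set κ : ℝ := s ^ 2 with hκd
  have hκ0 : 0 ≤ κ := by positivity
  set n : ℝ := (N : ℝ) with hn
  have hn1 : 1 ≤ n := hY.trans hYN
  have hn0 : 0 < n := by linarith
  have hb : 7 ≤ ε / 2 * n ^ 3 := by
    have h1 : 14 / ε ≤ n := by
      have h2 : ((⌈14 / ε⌉₊ + 1 : ℕ) : ℝ) ≤ n := by rw [hn]; exact_mod_cast hN
      have h3 := Nat.le_ceil (14 / ε)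
      push_cast at h2
      linarith
    rw [div_le_iff₀ hε] at h1
    have h2 : n ≤ n ^ 3 := by nlinarith [mul_self_nonneg (n - 1), mul_self_nonneg n]
    nlinarith
  -- the classes
  let P : Fin 7 → ℤ → Prop := ![
    fun b => |(F4 a b : ℝ) - Y ^ 4| ≤ 56 * κ * n ^ 4,
    fun b => |(F4 a b : ℝ) + Y ^ 4| ≤ 56 * κ * n ^ 4,
    fun b => |(F6 a b : ℝ) - Y ^ 6| ≤ 624 * κ * n ^ 6 ∧ 0 ≤ (b : ℝ) - (a : ℝ) ^ 3 / 12,
    fun b => |(F6 a b : ℝ) - Y ^ 6| ≤ 624 * κ * n ^ 6 ∧ (b : ℝ) - (a : ℝ) ^ 3 / 12 ≤ 0,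
    fun b => |(F6 a b : ℝ) + Y ^ 6| ≤ 624 * κ * n ^ 6 ∧ 0 ≤ (b : ℝ) - (a : ℝ) ^ 3 / 12,
    fun b => |(F6 a b : ℝ) + Y ^ 6| ≤ 624 * κ * n ^ 6 ∧ (b : ℝ) - (a : ℝ) ^ 3 / 12 ≤ 0,
    fun b => |(EE a b : ℝ)| ≤ 12 * κ * n ^ 3]
  set I := Icc (-(N : ℤ) ^ 3) ((N : ℤ) ^ 3) with hI
  have hcube := cube_sub hn0.le hκ0 ha2 ha3 ha4
  have hfour := four_sub hn0.le hκ0 ha2 ha3 ha4
  have hsix := six_sub hn0.le hκ0 ha2 ha3 ha4
  have hcov : ∀ b ∈ I, ¬ (Cnd Y sb sE a b ↔ Cnd Y sb sE a' b) → ∃ i, P i b := by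
    intro b hbI hb'
    have hbn : |(b : ℝ)| ≤ n ^ 3 := by
      rw [hI, mem_Icc] at hbI
      rw [abs_le, hn]
      constructor
      · exact_mod_cast hbI.1
      · exact_mod_cast hbI.2
    have d4 : |(F4 a b : ℝ) - F4 a' b| ≤ 56 * κ * n ^ 4 := by
      have e1 : (F4 a b : ℝ) - F4 a' b =
          ((a : ℝ) ^ 4 - (a' : ℝ) ^ 4) - 24 * (((a : ℝ) - a') * b) := by
        simp only [F4]; push_cast; ring
      have h1 : |((a : ℝ) - a') * b| ≤ (κ * n) * n ^ 3 := by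
        rw [abs_mul]
        exact mul_le_mul ha4 hbn (abs_nonneg _) (by positivity)
      rw [e1]
      refine (abs_sub _ _).trans ?_
      rw [abs_mul, abs_of_pos (by norm_num : (0 : ℝ) < 24)]
      nlinarith
    have d6 : |(F6 a b : ℝ) - F6 a' b| ≤ 624 * κ * n ^ 6 := by
      have e1 : (F6 a b : ℝ) - F6 a' b =
          36 * (((a : ℝ) ^ 3 - (a' : ℝ) ^ 3) * b) - ((a : ℝ) ^ 6 - (a' : ℝ) ^ 6) := by
        simp only [F6]; push_cast; ring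
      have h1 : |((a : ℝ) ^ 3 - (a' : ℝ) ^ 3) * b| ≤ (12 * κ * n ^ 3) * n ^ 3 := by
        rw [abs_mul]
        exact mul_le_mul hcube hbn (abs_nonneg _) (by positivity)
      rw [e1]
      refine (abs_sub _ _).trans ?_
      rw [abs_mul, abs_of_pos (by norm_num : (0 : ℝ) < 36)]
      nlinarith
    have dE : |(EE a b : ℝ) - EE a' b| ≤ 12 * κ * n ^ 3 := by
      have e1 : (EE a b : ℝ) - EE a' b = (a : ℝ) ^ 3 - (a' : ℝ) ^ 3 := by
        simp only [EE]; push_cast; ring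
      rw [e1]; exact hcube
    by_contra hno
    push Not at hno
    apply hb'
    have k4 : |(F4 a b : ℝ)| ≤ Y ^ 4 ↔ |(F4 a' b : ℝ)| ≤ Y ^ 4 := by
      by_contra hc
      rcases change d4 hc with h | h
      · exact hno 0 h
      · exact hno 1 h
    have k6 : |(F6 a b : ℝ)| ≤ Y ^ 6 ↔ |(F6 a' b : ℝ)| ≤ Y ^ 6 := by
      by_contra hc
      rcases change d6 hc with h | h <;>
        rcases le_total 0 ((b : ℝ) - (a : ℝ) ^ 3 / 12) with h' | h'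
      · exact hno 2 ⟨h, h'⟩
      · exact hno 3 ⟨h, h'⟩
      · exact hno 4 ⟨h, h'⟩
      · exact hno 5 ⟨h, h'⟩
    have kE : 0 < sE * EE a b ↔ 0 < sE * EE a' b := by
      by_contra hc
      have hc' : ¬ (0 < (sE : ℝ) * (EE a b : ℝ) ↔ 0 < (sE : ℝ) * (EE a' b : ℝ)) := by
        intro h
        apply hc
        exact_mod_cast h
      have hsE' : (sE : ℝ) = 1 ∨ (sE : ℝ) = -1 := by
        rcases hsE with rfl | rfl <;> simp
      exact hno 6 (changeS hsE' dE hc')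
    unfold Cnd Reg
    rw [k4, k6, kE]
  have hsub : (I.filter fun b => ¬ (Cnd Y sb sE a b ↔ Cnd Y sb sE a' b)) ⊆
      (Finset.univ : Finset (Fin 7)).biUnion fun i => I.filter fun b => P i b := by
    intro b hb'
    rw [mem_filter] at hb'
    obtain ⟨i, hi⟩ := hcov b hb'.1 hb'.2
    rw [mem_biUnion]
    exact ⟨i, mem_univ _, mem_filter.2 ⟨hb'.1, hi⟩⟩
  have hc1 : (((I.filter fun b => ¬ (Cnd Y sb sE a b ↔ Cnd Y sb sE a' b)).card : ℕ) : ℝ) ≤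
      ∑ i : Fin 7, ((I.filter fun b => P i b).card : ℝ) := by
    have := (card_le_card hsub).trans card_biUnion_le
    exact_mod_cast this
  have ha0 : 0 < |(a : ℝ)| := lt_of_lt_of_le (by positivity) ha1
  -- linear classes
  have lin4 : ∀ x y c : ℝ, |(a : ℝ) ^ 4 - 24 * a * x - c| ≤ 56 * κ * n ^ 4 →
      |(a : ℝ) ^ 4 - 24 * a * y - c| ≤ 56 * κ * n ^ 4 → |x - y| ≤ 5 * κ / η * n ^ 3 := by
    intro x y c hx hy
    have h1 : |24 * (a : ℝ) * (x - y)| ≤ 112 * κ * n ^ 4 := by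
      have e1 : 24 * (a : ℝ) * (x - y) =
        ((a : ℝ) ^ 4 - 24 * a * y - c) - ((a : ℝ) ^ 4 - 24 * a * x - c) := by ring
      rw [e1]
      exact (abs_sub _ _).trans (by linarith)
    rw [abs_mul, abs_mul, abs_of_pos (by norm_num : (0 : ℝ) < 24)] at h1
    have h2 : 24 * (η * n) * |x - y| ≤ 112 * κ * n ^ 4 := by
      refine le_trans ?_ h1
      have := mul_le_mul_of_nonneg_right ha1 (abs_nonneg (x - y))
      nlinarith
    have h3 : η * |x - y| ≤ 5 * κ * n ^ 3 := by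
      have h4 : n * (24 * η * |x - y|) ≤ n * (112 * κ * n ^ 3) := by nlinarith
      have h5 := le_of_mul_le_mul_left h4 hn0
      have h6 : 0 ≤ κ * n ^ 3 := by positivity
      nlinarith
    have h4 : 5 * κ / η * n ^ 3 = (5 * κ * n ^ 3) / η := by ring
    rw [h4, le_div_iff₀ hη]
    linarith
  have lin6 : ∀ x y c : ℝ, |-((a : ℝ) ^ 6 - 36 * a ^ 3 * x + 216 * x ^ 2) - c| ≤ 624 * κ * n ^ 6 →
      |-((a : ℝ) ^ 6 - 36 * a ^ 3 * y + 216 * y ^ 2) - c| ≤ 624 * κ * n ^ 6 →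
      (0 ≤ (x - (a : ℝ) ^ 3 / 12) * (y - (a : ℝ) ^ 3 / 12)) →
      |x - y| ≤ 3 * s * n ^ 3 := by
    intro x y c hx hy hxy
    have h1 : |216 * ((x - (a : ℝ) ^ 3 / 12) ^ 2 - (y - (a : ℝ) ^ 3 / 12) ^ 2)| ≤
        1248 * κ * n ^ 6 := by
      have e1 : 216 * ((x - (a : ℝ) ^ 3 / 12) ^ 2 - (y - (a : ℝ) ^ 3 / 12) ^ 2) =
        (-((a : ℝ) ^ 6 - 36 * a ^ 3 * y + 216 * y ^ 2) - c) -
        (-((a : ℝ) ^ 6 - 36 * a ^ 3 * x + 216 * x ^ 2) - c) := by ring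
      rw [e1]
      exact (abs_sub _ _).trans (by linarith)
    set u := x - (a : ℝ) ^ 3 / 12 with hu
    set v := y - (a : ℝ) ^ 3 / 12 with hv
    have h2 : x - y = u - v := by rw [hu, hv]; ring
    rw [h2]
    apply abs_le_of_sq_le_sq _ (by positivity)
    have h3 : (u - v) ^ 2 ≤ |u ^ 2 - v ^ 2| := by
      rcases le_total (u ^ 2) (v ^ 2) with h | h
      · rw [abs_of_nonpos (by linarith)]
        have : u ^ 2 ≤ u * v := by
          have h5 : (u ^ 2) ^ 2 ≤ (u * v) ^ 2 := by nlinarith [mul_le_mul_of_nonneg_left h (sq_nonneg u)]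
          exact abs_le_of_sq_le_sq' h5 hxy |>.2
        nlinarith
      · rw [abs_of_nonneg (by linarith)]
        have : v ^ 2 ≤ u * v := by
          have h5 : (v ^ 2) ^ 2 ≤ (u * v) ^ 2 := by nlinarith [mul_le_mul_of_nonneg_left h (sq_nonneg v)]
          exact abs_le_of_sq_le_sq' h5 hxy |>.2
        nlinarith
    rw [abs_mul, abs_of_pos (by norm_num : (0 : ℝ) < 216)] at h1
    have h4 : (3 * s * n ^ 3) ^ 2 = 9 * κ * n ^ 6 := by rw [hκd]; ring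
    rw [h4]
    have h5 : 0 ≤ κ * n ^ 6 := by positivity
    nlinarith
  have linE : ∀ x y : ℝ, |(a : ℝ) ^ 3 - 27 * x| ≤ 12 * κ * n ^ 3 →
      |(a : ℝ) ^ 3 - 27 * y| ≤ 12 * κ * n ^ 3 → |x - y| ≤ κ * n ^ 3 := by
    intro x y hx hy
    have h1 := abs_le.1 hx
    have h2 := abs_le.1 hy
    have h5 : 0 ≤ κ * n ^ 3 := by positivity
    rw [abs_le]
    constructor <;> linarith
  have eF4 : ∀ b : ℤ, (F4 a b : ℝ) = (a : ℝ) ^ 4 - 24 * a * b := by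
    intro b; simp only [F4]; push_cast; ring
  have eF6 : ∀ b : ℤ, (F6 a b : ℝ) = -((a : ℝ) ^ 6 - 36 * a ^ 3 * b + 216 * b ^ 2) := by
    intro b; simp only [F6]; push_cast; ring
  have eEE : ∀ b : ℤ, (EE a b : ℝ) = (a : ℝ) ^ 3 - 27 * b := by
    intro b; simp only [EE]; push_cast; ring
  have c0 : ((I.filter fun b => P 0 b).card : ℝ) ≤ 5 * κ / η * n ^ 3 + 1 := by
    apply card_le _ _ (by positivity)
    intro x hx y hy
    have hx' : |(F4 a x : ℝ) - Y ^ 4| ≤ 56 * κ * n ^ 4 := (mem_filter.1 hx).2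
    have hy' : |(F4 a y : ℝ) - Y ^ 4| ≤ 56 * κ * n ^ 4 := (mem_filter.1 hy).2
    rw [eF4] at hx' hy'
    exact lin4 _ _ _ hx' hy'
  have c1 : ((I.filter fun b => P 1 b).card : ℝ) ≤ 5 * κ / η * n ^ 3 + 1 := by
    apply card_le _ _ (by positivity)
    intro x hx y hy
    have hx' : |(F4 a x : ℝ) + Y ^ 4| ≤ 56 * κ * n ^ 4 := (mem_filter.1 hx).2
    have hy' : |(F4 a y : ℝ) + Y ^ 4| ≤ 56 * κ * n ^ 4 := (mem_filter.1 hy).2
    rw [eF4] at hx' hy'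
    refine lin4 _ _ (-Y ^ 4) ?_ ?_
    · convert hx' using 2; ring
    · convert hy' using 2; ring
  have c2 : ((I.filter fun b => P 2 b).card : ℝ) ≤ 3 * s * n ^ 3 + 1 := by
    apply card_le _ _ (by positivity)
    intro x hx y hy
    have hx' : |(F6 a x : ℝ) - Y ^ 6| ≤ 624 * κ * n ^ 6 ∧ 0 ≤ (x : ℝ) - (a : ℝ) ^ 3 / 12 :=
      (mem_filter.1 hx).2
    have hy' : |(F6 a y : ℝ) - Y ^ 6| ≤ 624 * κ * n ^ 6 ∧ 0 ≤ (y : ℝ) - (a : ℝ) ^ 3 / 12 :=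
      (mem_filter.1 hy).2
    rw [eF6] at hx' hy'
    exact lin6 _ _ _ hx'.1 hy'.1 (mul_nonneg hx'.2 hy'.2)
  have c3 : ((I.filter fun b => P 3 b).card : ℝ) ≤ 3 * s * n ^ 3 + 1 := by
    apply card_le _ _ (by positivity)
    intro x hx y hy
    have hx' : |(F6 a x : ℝ) - Y ^ 6| ≤ 624 * κ * n ^ 6 ∧ (x : ℝ) - (a : ℝ) ^ 3 / 12 ≤ 0 :=
      (mem_filter.1 hx).2
    have hy' : |(F6 a y : ℝ) - Y ^ 6| ≤ 624 * κ * n ^ 6 ∧ (y : ℝ) - (a : ℝ) ^ 3 / 12 ≤ 0 :=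
      (mem_filter.1 hy).2
    rw [eF6] at hx' hy'
    exact lin6 _ _ _ hx'.1 hy'.1 (mul_nonneg_of_nonpos_of_nonpos hx'.2 hy'.2)
  have c4 : ((I.filter fun b => P 4 b).card : ℝ) ≤ 3 * s * n ^ 3 + 1 := by
    apply card_le _ _ (by positivity)
    intro x hx y hy
    have hx' : |(F6 a x : ℝ) + Y ^ 6| ≤ 624 * κ * n ^ 6 ∧ 0 ≤ (x : ℝ) - (a : ℝ) ^ 3 / 12 :=
      (mem_filter.1 hx).2
    have hy' : |(F6 a y : ℝ) + Y ^ 6| ≤ 624 * κ * n ^ 6 ∧ 0 ≤ (y : ℝ) - (a : ℝ) ^ 3 / 12 :=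
      (mem_filter.1 hy).2
    rw [eF6] at hx' hy'
    refine lin6 _ _ (-Y ^ 6) ?_ ?_ (mul_nonneg hx'.2 hy'.2)
    · convert hx'.1 using 2; ring
    · convert hy'.1 using 2; ring
  have c5 : ((I.filter fun b => P 5 b).card : ℝ) ≤ 3 * s * n ^ 3 + 1 := by
    apply card_le _ _ (by positivity)
    intro x hx y hy
    have hx' : |(F6 a x : ℝ) + Y ^ 6| ≤ 624 * κ * n ^ 6 ∧ (x : ℝ) - (a : ℝ) ^ 3 / 12 ≤ 0 :=
      (mem_filter.1 hx).2
    have hy' : |(F6 a y : ℝ) + Y ^ 6| ≤ 624 * κ * n ^ 6 ∧ (y : ℝ) - (a : ℝ) ^ 3 / 12 ≤ 0 :=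
      (mem_filter.1 hy).2
    rw [eF6] at hx' hy'
    refine lin6 _ _ (-Y ^ 6) ?_ ?_ (mul_nonneg_of_nonpos_of_nonpos hx'.2 hy'.2)
    · convert hx'.1 using 2; ring
    · convert hy'.1 using 2; ring
  have c6 : ((I.filter fun b => P 6 b).card : ℝ) ≤ κ * n ^ 3 + 1 := by
    apply card_le _ _ (by positivity)
    intro x hx y hy
    have hx' : |(EE a x : ℝ)| ≤ 12 * κ * n ^ 3 := (mem_filter.1 hx).2
    have hy' : |(EE a y : ℝ)| ≤ 12 * κ * n ^ 3 := (mem_filter.1 hy).2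
    rw [eEE] at hx' hy'
    exact linE _ _ hx' hy'
  refine hc1.trans ?_
  rw [Fin.sum_univ_seven]
  have hn3 : 0 < n ^ 3 := by positivity
  have hfin : (10 * κ / η + 12 * s + κ) * n ^ 3 ≤ ε / 2 * n ^ 3 := by
    apply mul_le_mul_of_nonneg_right _ hn3.le
    have h1 : 10 * κ / η ≤ 10 * s / η := by
      apply div_le_div_of_nonneg_right _ hη.le
      linarith
    have h2 : (10 / η + 13) * s = 10 * s / η + 13 * s := by ring
    linarith
  have hsplit : 5 * κ / η * n ^ 3 + 1 + (5 * κ / η * n ^ 3 + 1) + (3 * s * n ^ 3 + 1) +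
      (3 * s * n ^ 3 + 1) + (3 * s * n ^ 3 + 1) + (3 * s * n ^ 3 + 1) + (κ * n ^ 3 + 1) =
      (10 * κ / η + 12 * s + κ) * n ^ 3 + 7 := by ring
  linarith

end Pool.Agent.K1H88.T3
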