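import Pool.Agent.K1H81.TT.Stm

/-!
Interface of project T3 (MP_6073f3_nt): the root numbers of the semistable elliptic curves over `ℚ`
with a rational point of order three, ordered by naive height, are equidistributed.
After project TT of helper81 (points of order two). Every statement `S_xxx` is one piece.
-/

set_option autoImplicit false

namespace Pool.Agent.K1H88.T3

open Finset Filter Topology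
open Pool.Agent.K1H81.TT (Semistable rootNumber height QQ gg mm e)

/-! ### curves -/

/-- there is a rational point of order three -/
def ThreeTors (W : WeierstrassCurve ℤ) : Prop :=
  ∃ P : (W.map (Int.castRingHom ℚ)).toAffine.Point, P ≠ 0 ∧ (3 : ℕ) • P = 0

/-! ### the parametrization `y² + a x y + b y = x³` -/

def EE (a b : ℤ) : ℤ := a ^ 3 - 27 * b

def Adm (a b : ℤ) : Prop := ¬ (3 : ℤ) ∣ a ∧ b ≠ 0 ∧ EE a b ≠ 0 ∧ IsCoprime a b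

def F4 (a b : ℤ) : ℤ := a * (a ^ 3 - 24 * b)

def F6 (a b : ℤ) : ℤ := -(a ^ 6 - 36 * a ^ 3 * b + 216 * b ^ 2)

def DD (a b : ℤ) : ℤ := b ^ 3 * EE a b

/-- the symbol `(-3 / p)` -/
def ch3 (n : ℕ) : ℤ := if n % 3 = 1 then 1 else if n % 3 = 2 then -1 else 0

/-- the root number in terms of `a, b` -/
def w (a b : ℤ) : ℤ :=
  -((∏ _p ∈ b.natAbs.primeFactors, (-1 : ℤ)) * ∏ p ∈ (EE a b).natAbs.primeFactors, (-ch3 p))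

/-- PAR -/
def S_PAR : Prop := ∀ W : WeierstrassCurve ℤ, Semistable W → ThreeTors W →
  ∃ a b : ℤ, Adm a b ∧ W.c₄ = F4 a b ∧ W.c₆ = F6 a b

/-- CONV -/
def S_CONV : Prop := ∀ a b : ℤ, Adm a b →
  ∃ W : WeierstrassCurve ℤ, Semistable W ∧ ThreeTors W ∧ W.c₄ = F4 a b ∧ W.c₆ = F6 a b

/-- WRT -/
def S_WRT : Prop := ∀ (W : WeierstrassCurve ℤ) (a b : ℤ), Semistable W → Adm a b →
  W.c₄ = F4 a b → W.c₆ = F6 a b → W.Δ = DD a b ∧ rootNumber W = w a b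

/-- HGT -/
def S_HGT : Prop := ∀ W : WeierstrassCurve ℤ, Semistable W → ¬ (3 : ℤ) ∣ W.c₄ →
  height W = 78732 * max (W.c₄.natAbs ^ 3) (W.c₆.natAbs ^ 2)

/-- MUL: two pairs for every curve -/
def S_MUL : Prop := ∀ a b a' b' : ℤ, Adm a b → Adm a' b' → F4 a b = F4 a' b' → F6 a b = F6 a' b' →
  (a' = a ∧ b' = b) ∨ (a' = -a ∧ b' = -b)

/-- `w` is even, and a sign -/
def S_SGN : Prop := ∀ a b : ℤ, Adm a b → Adm (-a) (-b) ∧ w (-a) (-b) = w a b ∧ (w a b = 1 ∨ w a b = -1)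

/-! ### the region of bounded height -/

def Reg (Y : ℝ) (a b : ℤ) : Prop :=
  |(F4 a b : ℝ)| ≤ Y ^ 4 ∧ |(F6 a b : ℝ)| ≤ Y ^ 6

/-- BOX -/
def S_BOX : Prop := ∀ (Y : ℝ) (a b : ℤ), 0 ≤ Y → Reg Y a b → |(a : ℝ)| ≤ 2 * Y ∧ |(b : ℝ)| ≤ Y ^ 3

/-- the box `|a| ≤ 2N`, `|b| ≤ N³` -/
noncomputable def Bx (N : ℕ) : Finset (ℤ × ℤ) :=
  Icc (-(2 * (N : ℤ))) (2 * N) ×ˢ Icc (-(N : ℤ) ^ 3) ((N : ℤ) ^ 3)

open Classical in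
/-- the admissible pairs of the region -/
noncomputable def FS (Y : ℝ) : Finset (ℤ × ℤ) :=
  (Bx ⌈Y⌉₊).filter fun z => Adm z.1 z.2 ∧ Reg Y z.1 z.2

/-- LOW -/
def S_LOW : Prop := ∃ c : ℝ, 0 < c ∧ ∃ Y0 : ℝ, ∀ Y : ℝ, Y0 ≤ Y → c * Y ^ 4 ≤ ((FS Y).card : ℝ)

/-- all conditions at the real places -/
def Cnd (Y : ℝ) (sb sE : ℤ) (a b : ℤ) : Prop := Reg Y a b ∧ 0 < sb * b ∧ 0 < sE * EE a b

/-- FIB: for fixed `a` the set of the `b` is a difference of two intervals -/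
def S_FIB : Prop := ∀ (N : ℕ) (Y : ℝ), 1 ≤ Y → Y ≤ N → ∀ sb sE : ℤ, (sb = 1 ∨ sb = -1) →
  (sE = 1 ∨ sE = -1) → ∀ a : ℤ, ∃ s t s' t' : ℤ,
    -(N : ℤ) ^ 3 - 1 ≤ s ∧ s ≤ t ∧ t ≤ (N : ℤ) ^ 3 ∧ s ≤ s' ∧ s' ≤ t' ∧ t' ≤ t ∧
    ∀ b : ℤ, Cnd Y sb sE a b ↔ ((s < b ∧ b ≤ t) ∧ ¬ (s' < b ∧ b ≤ t'))

open Classical in
/-- STEP: the set of the `b` depends continuously on `a` -/
def S_STEP : Prop := ∀ η ε : ℝ, 0 < η → 0 < ε → ∃ κ : ℝ, 0 < κ ∧ ∃ N0 : ℕ, ∀ (N : ℕ) (Y : ℝ), N0 ≤ N →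
  1 ≤ Y → Y ≤ N → (N : ℝ) ≤ Y + 1 → ∀ sb sE : ℤ, (sb = 1 ∨ sb = -1) → (sE = 1 ∨ sE = -1) →
  ∀ a a' : ℤ, η * N ≤ |(a : ℝ)| → |(a : ℝ)| ≤ 2 * N → |(a' : ℝ)| ≤ 2 * N → |(a : ℝ) - a'| ≤ κ * N →
    ((((Icc (-(N : ℤ) ^ 3) ((N : ℤ) ^ 3)).filter fun b =>
      ¬ (Cnd Y sb sE a b ↔ Cnd Y sb sE a' b)).card : ℕ) : ℝ) ≤ ε * (N : ℝ) ^ 3

/-! ### exceptional pairs, local constancy -/

/-- pairs with a large square or a large power in `b` or `a³ - 27 b`, or a large common prime -/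
def Bad (y K : ℕ) (a b : ℤ) : Prop := ∃ p : ℕ, p.Prime ∧
  ((y < p ∧ ((p : ℤ) ^ 2 ∣ b ∨ (p : ℤ) ^ 2 ∣ EE a b ∨ ((p : ℤ) ∣ a ∧ (p : ℤ) ∣ b))) ∨
    (p ≤ y ∧ ((p : ℤ) ^ K ∣ b ∨ (p : ℤ) ^ K ∣ EE a b)))

open Classical in
/-- BAD: few exceptional pairs -/
def S_BAD : Prop := ∀ ε : ℝ, 0 < ε → ∃ y K : ℕ, 3 ≤ y ∧ 1 ≤ K ∧ ∃ N0 : ℕ, ∀ N : ℕ, N0 ≤ N →
  ((((Bx N).filter fun z => ¬ (3 : ℤ) ∣ z.1 ∧ z.2 ≠ 0 ∧ EE z.1 z.2 ≠ 0 ∧ Bad y K z.1 z.2).card : ℕ) : ℝ) ≤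
    ε * (N : ℝ) ^ 4

/-- INV: `w` times the two Möbius functions is locally constant -/
def S_INV : Prop := ∀ y K : ℕ, 1 ≤ K →
  (∀ a b : ℤ, Adm a b → ¬ Bad y K a b → mm y K b ^ 2 = 1 ∧ mm y K (EE a b) ^ 2 = 1) ∧
  ∀ a b a' b' : ℤ, Adm a b → Adm a' b' → ¬ Bad y K a b → ¬ Bad y K a' b' →
    a ≡ a' [ZMOD (24 * QQ y K : ℕ)] → b ≡ b' [ZMOD (24 * QQ y K : ℕ)] →
    (0 < b ↔ 0 < b') → (0 < EE a b ↔ 0 < EE a' b') →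
    w a b * mm y K b * mm y K (EE a b) = w a' b' * mm y K b' * mm y K (EE a' b')

/-! ### the correlation sums -/

/-- the summand -/
noncomputable def cor (M g h : ℕ) (α δ a b : ℤ) : ℤ :=
  if a ≡ α [ZMOD M] ∧ b ≡ δ [ZMOD M] then
    ArithmeticFunction.moebius (b.natAbs / g) * ArithmeticFunction.moebius ((EE a b).natAbs / h)
  else 0

/-- WEYL: the inverse theorem for cubic Weyl sums in residue classes -/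
def S_WEYL : Prop := ∀ M : ℕ, 0 < M → ∀ η : ℝ, 0 < η → ∃ (q1 : ℕ) (w1 : ℝ), 0 < w1 ∧
  ∀ N : ℕ, 1 ≤ N → ∀ (α a b : ℤ) (θ : ℝ), -(2 * (N : ℤ)) ≤ a → b ≤ 2 * N →
    η * N ≤ ‖∑ A ∈ (Ico a b).filter (fun A => A ≡ α [ZMOD M]), e (θ * (A : ℝ) ^ 3)‖ →
    ∃ q : ℕ, 1 ≤ q ∧ q ≤ q1 ∧ ∃ k : ℤ, |q * θ - k| ≤ w1 / (N : ℝ) ^ 3

/-- COR1: the correlation sums over boxes -/
def S_COR1 : Prop := ∀ M g h : ℕ, 0 < M → 0 < g → 0 < h → g ∣ M → h ∣ M → ∀ α δ : ℤ, (g : ℤ) ∣ δ →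
  (h : ℤ) ∣ EE α δ → ∀ ε : ℝ, 0 < ε → ∃ N0 : ℕ, ∀ N : ℕ, N0 ≤ N → ∀ a1 a2 s t : ℤ,
    -(2 * (N : ℤ)) ≤ a1 → a2 ≤ 2 * N → -(N : ℤ) ^ 3 - 1 ≤ s → t ≤ (N : ℤ) ^ 3 →
    |((∑ a ∈ Ico a1 a2, ∑ b ∈ Ioc s t, cor M g h α δ a b : ℤ) : ℝ)| ≤ ε * (N : ℝ) ^ 4

open Classical in
/-- COR3: the same over the region (from `S_COR1`, `S_FIB`, `S_STEP`) -/
def S_COR3 : Prop := ∀ M g h : ℕ, 0 < M → 0 < g → 0 < h → g ∣ M → h ∣ M → ∀ α δ : ℤ, (g : ℤ) ∣ δ →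
  (h : ℤ) ∣ EE α δ → ∀ ε : ℝ, 0 < ε → ∃ N0 : ℕ, ∀ (N : ℕ) (Y : ℝ), N0 ≤ N → 1 ≤ Y → Y ≤ N →
    (N : ℝ) ≤ Y + 1 → ∀ sb sE : ℤ, (sb = 1 ∨ sb = -1) → (sE = 1 ∨ sE = -1) →
    |((∑ z ∈ (Bx N).filter (fun z => Cnd Y sb sE z.1 z.2), cor M g h α δ z.1 z.2 : ℤ) : ℝ)| ≤
      ε * (N : ℝ) ^ 4

/-- ANA: the root numbers cancel (from `S_BAD`, `S_INV`, `S_COR3`) -/
def S_ANA : Prop := ∀ ε : ℝ, 0 < ε → ∃ Y0 : ℝ, ∀ Y : ℝ, Y0 ≤ Y →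
  |((∑ z ∈ FS Y, w z.1 z.2 : ℤ) : ℝ)| ≤ ε * Y ^ 4

/-! ### the final statement -/

/-- the classes `(c₄, c₆)` of the semistable curves with a rational point of order three, height at
most `Z`, and root number satisfying `P` -/
def Fam (P : ℤ → Prop) (Z : ℕ) : Set (ℤ × ℤ) :=
  {z | ∃ W : WeierstrassCurve ℤ, Semistable W ∧ ThreeTors W ∧ height W ≤ Z ∧ P (rootNumber W) ∧
    z = (W.c₄, W.c₆)}

/-- the scale of the region -/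
noncomputable def Yh (Z : ℕ) : ℝ := ((Z : ℝ) / 78732) ^ ((1 : ℝ) / 12)

open Classical in
/-- FA: from classes to pairs -/
def S_FA : Prop := ∀ (Z : ℕ) (P : ℤ → Prop), (Fam P Z).Finite ∧
  2 * (Fam P Z).ncard = ((FS (Yh Z)).filter fun z => P (w z.1 z.2)).card

/-- FB: the final statement -/
def S_FIN : Prop :=
  (∀ Z, (Fam (fun _ => True) Z).Finite) ∧
  Tendsto (fun Z => (Fam (fun _ => True) Z).ncard) atTop atTop ∧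
  ∀ s : ℤ, s = 1 ∨ s = -1 →
    Tendsto (fun Z => ((Fam (fun w => w = s) Z).ncard : ℝ) / ((Fam (fun _ => True) Z).ncard : ℝ))
      atTop (𝓝 (1 / 2))

end Pool.Agent.K1H88.T3
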