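import Mathlib
import Pool.Agent.K1H88.T3.Stm
import Pool.Agent.K1H81.TT.WEYL

set_option autoImplicit false

/-! Piece WEYL of project T3 -/

namespace Pool.Agent.K1H88.T3

open Finset in
open Pool.Agent.Helper602.MK (ee) in
open Pool.Agent.Helper602.MK.N_J5b (norm_ee) in
open Pool.Agent.H373R2.NB (Ph IW IW_all) in
open Pool.Agent.K1H81.TT.WEYL (prog) in
open Pool.Agent.K1H81.TT (e) in
theorem t_WEYL : S_WEYL := by
  obtain ⟨c, m, hc, hI⟩ := IW_all 3 (by norm_num)
  intro M hM η hη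
  have hM0 : (0 : ℝ) < M := by exact_mod_cast hM
  have hM1 : (M : ℤ) ≠ 0 := by exact_mod_cast hM.ne'
  have hc0 : (0 : ℝ) < c := by exact_mod_cast hc
  set u : ℝ := 5 / η + 1 with hu
  have hu1 : 1 ≤ u := by
    have : 0 < 5 / η := by positivity
    linarith
  have hu0 : 0 < u := by linarith
  refine ⟨6 * M ^ 3 * ⌊(c : ℝ) * u ^ m⌋₊, c * u ^ m / η ^ 3, by positivity, ?_⟩
  intro N hN α a b θ ha hb hS
  have hN0 : (0 : ℝ) < N := by exact_mod_cast hN
  obtain ⟨A0, L, hL⟩ := prog M hM α a b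
  have hinj : Function.Injective (fun n : ℕ => A0 + M * (n : ℤ)) := by
    intro x y hxy
    simp only [add_right_inj, mul_eq_mul_left_iff] at hxy
    rcases hxy with h | h
    · exact_mod_cast h
    · exact absurd h hM1
  have hcard : L ≤ 4 * N := by
    have h1 : #((Ico a b).filter (fun A => A ≡ α [ZMOD M])) = L := by
      rw [hL, card_image_of_injective _ hinj, card_range]
    have h2 : #((Ico a b).filter (fun A => A ≡ α [ZMOD M])) ≤ (b - a).toNat := by
      rw [← Int.card_Ico]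
      exact card_filter_le _ _
    omega
  have hee : ∀ x : ℝ, e x = ee x := by
    intro x
    unfold e ee
    congr 1
    ring
  have hsum : ∑ A ∈ (Ico a b).filter (fun A => A ≡ α [ZMOD M]), e (θ * (A : ℝ) ^ 3) =
      ∑ n ∈ range L, ee (θ * (((A0 : ℝ) + M * n)) ^ 3) := by
    rw [hL, sum_image (fun x _ y _ h => hinj h)]
    refine sum_congr rfl fun n _ => ?_
    rw [hee]
    push_cast
    rfl
  rw [hsum] at hS
  set T : ℝ := ‖∑ n ∈ range L, ee (θ * (((A0 : ℝ) + M * n)) ^ 3)‖ with hT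
  have hT0 : 0 < T := lt_of_lt_of_le (by positivity) hS
  have hTL : T ≤ L := by
    calc T ≤ ∑ n ∈ range L, ‖ee (θ * (((A0 : ℝ) + M * n)) ^ 3)‖ := norm_sum_le _ _
      _ = L := by simp [norm_ee]
  have hL0 : (0 : ℝ) < L := hT0.trans_le hTL
  have hL1 : 1 ≤ L := by exact_mod_cast hL0
  have hph : Ph 3 (6 * M ^ 3 * θ) (fun n : ℕ => θ * (((A0 : ℝ) + M * n)) ^ 3) := by
    intro h h' h'' n
    simp only
    push_cast
    ring
  have hLu : (L : ℝ) ≤ u * T := by
    have h1 : (L : ℝ) ≤ 4 * N := by exact_mod_cast hcard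
    have h2 : (N : ℝ) ≤ T / η := by rw [le_div_iff₀ hη]; linarith
    have h3 : u * T = 5 * (T / η) + T := by rw [hu]; ring
    have h4 : 0 < T / η := by positivity
    rw [h3]
    linarith
  obtain ⟨q, hq1, hq2, k, hk⟩ := hI L u (6 * M ^ 3 * θ) _ hL1 hu1 hph hLu
  refine ⟨6 * M ^ 3 * q, Nat.mul_pos (by positivity) hq1, Nat.mul_le_mul_left _ (Nat.le_floor hq2), k, ?_⟩
  have e1 : ((6 * M ^ 3 * q : ℕ) : ℝ) * θ = q * (6 * M ^ 3 * θ) := by push_cast; ring
  rw [e1]
  refine hk.trans ?_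
  rw [div_div, ← mul_pow]
  apply div_le_div_of_nonneg_left (by positivity) (by positivity)
  exact pow_le_pow_left₀ (by positivity) (hS.trans hTL) 3

end Pool.Agent.K1H88.T3
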